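import Pool.Agent.helper94.AP.SpecM

/-! Row ap:MG (MP_16912e_nt): scaling -/

set_option autoImplicit false

namespace Pool.Agent.AP

open Finset NumberField Pool.Agent.helper3.FT Pool.Agent.helper47.RA Pool.Agent.T5

theorem MG (hRW : RW_stmt) : MG_stmt := by
  intro p r z y N Z hr hz hy hN hZ
  have hr' : (0 : ℝ) < r := by exact_mod_cast hr
  have hz' : (0 : ℝ) < z := by exact_mod_cast hz
  have hy' : (0 : ℝ) < y := by exact_mod_cast hy
  have hT : (0 : ℝ) < 4 * (r : ℝ) * (z : ℝ) ^ p := by positivity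
  have hu : (0 : ℝ) < (z : ℝ) / Z := div_pos hz' hZ
  have hV2 : (0 : ℝ) < 4 * (r : ℝ) * Z ^ p / N := by positivity
  obtain ⟨V, hV⟩ : ∃ V : ℝ, V = VV p N r Z := ⟨_, rfl⟩
  have hVpos : 0 < V := by
    rw [hV]
    exact Real.sqrt_pos.2 hV2
  have hVsq : V * V = 4 * (r : ℝ) * Z ^ p / N := by
    rw [hV]
    exact Real.mul_self_sqrt hV2.le
  obtain ⟨q, hq⟩ : ∃ q : ℝ, q = ((z : ℝ) / Z) ^ (-((p : ℝ) / 2)) := ⟨_, rfl⟩
  have hqpos : 0 < q := by
    rw [hq]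
    exact Real.rpow_pos_of_pos hu _
  have hqsq : q * q = (((z : ℝ) / Z) ^ p)⁻¹ := by
    rw [hq, ← Real.rpow_add hu]
    have e : -((p : ℝ) / 2) + -((p : ℝ) / 2) = -(p : ℝ) := by ring
    rw [e, Real.rpow_neg hu.le, Real.rpow_natCast]
  have hs : √(N / (4 * (r : ℝ) * (z : ℝ) ^ p)) = q / V := by
    rw [Real.sqrt_eq_iff_mul_self_eq (by positivity) (by positivity)]
    have e : q / V * (q / V) = (q * q) / (V * V) := by
      field_simp
    rw [e, hqsq, hVsq, div_pow]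
    field_simp
  have h1 := hRW.1 (4 * (r : ℝ) * (z : ℝ) ^ p) N y hT hN hy'
  rw [h1, ← hV]
  unfold Ph
  rw [← hq, hs]
  have e1 : 2 * N / √(4 * (r : ℝ) * (z : ℝ) ^ p) = 2 * √N * (q / V) := by
    rw [← hs, Real.sqrt_div hN.le]
    have e2 : 2 * √N * (√N / √(4 * (r : ℝ) * (z : ℝ) ^ p)) = 2 * (√N * √N) / √(4 * (r : ℝ) * (z : ℝ) ^ p) := by
      ring
    rw [e2, Real.mul_self_sqrt hN.le]
  rw [e1]
  have e3 : (y : ℝ) * (q / V) = (y : ℝ) / V * q := by ring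
  rw [e3]
  ring

end Pool.Agent.AP
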